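import Pool.Agent.N704.AS.B5

/-!
# AS/STEPB (project AS of helper139, MP_0ea811_al): marks in the algebra of the lamps
-/

set_option autoImplicit false

namespace Pool.Agent.N704.AS

open Finset Matrix
open Pool.Agent.N139.AS

noncomputable section

theorem t_STEPB (hO : S_OK) (hM : S_MARK) (hL : S_SPL) (hP : S_PROJ) : S_STEPB := by
  classical
  intro p _ l K q hl hq
  obtain ⟨M, hMdef⟩ : ∃ M : ℕ, M = q * (2 * K).factorial := ⟨_, rfl⟩
  have hM0 : 0 < M := by rw [hMdef]; exact Nat.mul_pos hq (Nat.factorial_pos _)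
  have hqM : q ∣ M := ⟨_, hMdef⟩
  refine ⟨2 * M, by omega, hqM.mul_left 2, 4 * M + q + 12 * K + 20, ?_⟩
  intro v w R hvw hwR d α t hA
  obtain ⟨P1, P2, P3, -, -, P6, -, -⟩ := hP p q (2 * M) v w R hq (by omega) (hqM.mul_left 2)
    (by omega) (by omega) d α t hA
  set pa := pA p q w α with hpa
  set pl := pL p (2 * M) v α with hpl
  -- windows
  obtain ⟨r, hr⟩ : ∃ r : ℕ, r = v + 2 * M + K := ⟨_, rfl⟩
  obtain ⟨m, hm⟩ : ∃ m : ℤ, m = 2 * K := ⟨_, rfl⟩
  set a : ℤ := -((r : ℤ) + m) with ha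
  set b : ℤ := (r : ℤ) + m with hb
  obtain ⟨G_P, -, G_o, -, -, -, G_s⟩ := hL p q R d α t hA a b (by omega) (by omega) (by omega)
  obtain ⟨G1, -⟩ := G_s (instWd a b)
  set Gb : (Wd a b → ZMod 2) → Mt d := fun β => GG2 p q α a b (ex2 a b β) with hGb
  have hGP : ∀ β, IsP (Gb β) := fun β => G_P _
  have hGo : ∀ β γ, β ≠ γ → Gb β * Gb γ = 0 := by
    intro β γ hne
    apply G_o
    by_contra hcon
    push Not at hcon
    apply hne
    funext k
    have := hcon k.1 k.2.1 k.2.2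
    rw [ex2_of β k.2, ex2_of γ k.2] at this
    exact this
  have hG1 : ∑ β, Gb β = 1 := by
    rw [← G1]
  have hμ : ∀ β, 0 ≤ rtr (Gb β) := fun β => rtr_nonneg (hGP β)
  have hμ1 : ∑ β, rtr (Gb β) = d := by
    rw [← rtr_sum, hG1, rtr_one]
  -- marks
  obtain ⟨B, hB1, hB2⟩ := hM (Wd a b → ZMod 2) (Wd (-(r : ℤ)) r → ZMod 2) (fun β => rtr (Gb β)) hμ
    K l hl (fun i β => lab a b r i β)
  rw [hμ1] at hB1 hB2
  set E : ℤ → Mt d := fun i => EM q α a b r B i with hE
  have hEdef : ∀ i, E i = ∑ β, if B (lab a b r (-i) β) then Gb β else 0 := by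
    intro i
    simp only [hE, EM, hGb]
  have hEP : ∀ i, IsP (E i) := by
    intro i
    rw [hEdef]
    have := sum_isP Gb hGP hGo (fun β => B (lab a b r (-i) β))
    convert this
  have hEsh : ∀ i : ℤ, |i| ≤ m → cj t i (E 0) = E i := by
    intro i hi
    exact EM_shift hL hA (by omega) (by omega) (by omega) B hi
  -- sets of elements
  obtain ⟨B0, hB0⟩ : ∃ B0 : ℕ, B0 = r + 2 * K + q := ⟨_, rfl⟩
  set T0 : Set (NN p) := {x | x ∈ SL p ∧ fN p q x = 1 ∧ x ∈ WN p (-(B0 : ℤ)) B0} with hT0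
  have hGT : ∀ β, GG2 p q α a b β ∈ Sp α T0 := by
    intro β
    apply GG2_mem
    intro ν hν
    refine ⟨xl_SL p q ν, xl_ker p q ν, ?_⟩
    exact WN_mono (by omega) (by omega) (xl_window hν)
  have hET : ∀ i, E i ∈ Sp α T0 := by
    intro i
    rw [hEdef]
    apply Submodule.sum_mem
    intro β _
    by_cases h : B (lab a b r (-i) β)
    · rw [if_pos h]
      exact hGT _
    · rw [if_neg h]
      exact Submodule.zero_mem _
  have hplT : pl ∈ Sp α T0 := by
    refine Sp_mono ?_ (avS_mem α {n | n ∈ SL p ∧ fN p (2 * M) n = 1 ∧ n ∈ WN p (-v) v})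
    rintro x ⟨hx1, hx2, hx3⟩
    exact ⟨hx1, fN_dvd (hqM.mul_left 2) hx1 hx2, WN_mono (by omega) (by omega) hx3⟩
  have hT0w : ∀ x ∈ T0, x ∈ SL p ∧ fN p q x = 1 ∧ x ∈ WN p (-w) w := by
    rintro x ⟨hx1, hx2, hx3⟩
    exact ⟨hx1, hx2, WN_mono (by omega) (by omega) hx3⟩
  -- the commutative algebra
  set s := Sset α t q w (B0 + 2 * K) (2 * K) with hs
  have hsc : ∀ x ∈ s, ∀ y ∈ s, x * y = y * x :=
    Sset_comm hO hA (by omega) (by omega) P3
  set 𝒜 := Algebra.adjoin ℂ s with h𝒜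
  have hc : Cm 𝒜 := adjoin_Cm hsc
  have hpam : ∀ i : ℤ, |i| ≤ ((2 * K : ℕ) : ℤ) → cj t i pa ∈ 𝒜 := fun i hi =>
    Algebra.subset_adjoin (Or.inr ⟨i, hi, rfl⟩)
  have hT0A : ∀ X ∈ Sp α T0, X ∈ 𝒜 := fun X hX => Sp_le_adjoin (fun x hx =>
    Or.inl ⟨x, hx.1, WN_mono (by push_cast; omega) (by push_cast; omega) hx.2.2, rfl⟩) hX
  have hT0cj : ∀ X ∈ Sp α T0, ∀ i : ℤ, |i| ≤ ((2 * K : ℕ) : ℤ) → cj t i X ∈ 𝒜 := by
    intro X hX i hi
    have hi' := abs_le.1 hi
    have h1 : cj t i X ∈ Sp α {x | x ∈ SL p ∧ x ∈ WN p (-((B0 + 2 * K : ℕ) : ℤ)) ((B0 + 2 * K : ℕ) : ℤ)} := by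
      apply cj_Sp _ hX
      rintro x ⟨hx1, hx2, hx3⟩
      refine ⟨⟨sg_SL i x hx1, ?_⟩, ?_⟩
      · have h5 := (sg_window hO i (-(B0 : ℤ)) B0 x).2 hx3
        exact WN_mono (by push_cast; push_cast at hi'; omega) (by push_cast; push_cast at hi'; omega) h5
      · exact cj_alpha hO hA hi (WN_mono (by push_cast; omega) (by push_cast; omega) hx3)
    exact Sp_le_adjoin (fun x hx => Or.inl ⟨x, hx.1, hx.2, rfl⟩) h1
  have hpa0 : pa ∈ 𝒜 := by
    have := hpam 0 (by simp)
    rwa [cj_zero] at this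
  have hEA : ∀ i, E i ∈ 𝒜 := fun i => hT0A _ (hET i)
  have hplA : pl ∈ 𝒜 := hT0A _ hplT
  have hGA : ∀ β, Gb β ∈ 𝒜 := fun β => hT0A _ (hGT _)
  -- the region
  set qB := pa - pa * pl with hqB
  have hqBA : qB ∈ 𝒜 := 𝒜.sub_mem hpa0 (𝒜.mul_mem hpa0 hplA)
  have hqBP : IsP qB := by
    have h1 : qB = pa * (1 - pa * pl) := by
      rw [mul_sub, mul_one, P6]
    rw [h1]
    exact isP_mul P1 (isP_compl P2) (hc _ hpa0 _ (mem_compl (𝒜.mul_mem hpa0 hplA)))
  have hqpa : qB * pa = qB := by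
    rw [hc _ hqBA _ hpa0, hqB, mul_sub, P1.2, P6]
  have hqcj : ∀ i : ℤ, |i| ≤ ((2 * K : ℕ) : ℤ) → cj t i qB ∈ 𝒜 := by
    intro i hi
    rw [hqB, cj_sub, cj_mul]
    exact 𝒜.sub_mem (hpam i hi) (𝒜.mul_mem (hpam i hi) (hT0cj _ hplT i hi))
  -- the marks
  have hecj : ∀ i : ℤ, |i| ≤ ((2 * K : ℕ) : ℤ) → cj t i (E 0 * pa) = E i * cj t i pa := by
    intro i hi
    rw [cj_mul, hEsh i (by push_cast at hi; omega)]
  have hecjA : ∀ i : ℤ, |i| ≤ ((2 * K : ℕ) : ℤ) → cj t i (E 0 * pa) ∈ 𝒜 := by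
    intro i hi
    rw [hecj i hi]
    exact 𝒜.mul_mem (hEA i) (hpam i hi)
  have hmk : Mk (SS p) (2 * K) α t (E 0 * pa) qB := by
    refine ⟨isP_mul (hEP 0) P1 (hc _ (hEA 0) _ hpa0), hqBP, ?_, ?_, ?_, ?_, ?_⟩
    · intro i j hi hj
      exact hc _ (hecjA i hi) _ (hecjA j hj)
    · intro i j hi hj
      exact hc _ (hecjA i hi) _ (hqcj j hj)
    · intro i j hi hj
      exact hc _ (hqcj i hi) _ (hqcj j hj)
    · intro n hn
      exact AE hO hA (by omega) hT0w P3 (hET 0) (WN_mono (by push_cast; omega) (by push_cast; omega) hn)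
    · intro n hn
      have hn' : n ∈ WN p (-w) w := WN_mono (by push_cast; omega) (by push_cast; omega) hn
      have h1 := AE hO hA (by omega) hT0w P3 hplT hn'
      rw [hqB, hc _ hpa0 _ hplA]
      exact (P3 n hn').sub_right h1
  refine ⟨E 0 * pa, hmk, ?_, ?_⟩
  · -- the trace of the marks
    have h1 : rtr (E 0 * pa) ≤ rtr (E 0) := rtr_mul_le (hEP 0) P1 (hc _ (hEA 0) _ hpa0)
    have h2 : rtr (E 0) = ∑ β, if B (lab a b r 0 β) then rtr (Gb β) else 0 := by
      rw [hEdef, rtr_sum]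
      apply Finset.sum_congr rfl
      intro β _
      rw [neg_zero]
      by_cases h : B (lab a b r 0 β)
      · rw [if_pos h, if_pos h]
      · rw [if_neg h, if_neg h, rtr_zero]
    have h3 : (∑ β, if B (lab a b r 0 β) then rtr (Gb β) else 0) ≤ 2 / l * d := by
      convert hB1
    linarith
  -- labels which are not injective
  have hni : ∀ β : Wd a b → ZMod 2, ¬ (∀ i j : ℤ, |i| ≤ K → |j| ≤ K →
      lab a b r i β = lab a b r j β → i = j) → qB * Gb β = 0 := by
    intro β hβ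
    have h0 : ∃ i j : ℤ, |i| ≤ K ∧ |j| ≤ K ∧ i < j ∧ lab a b r i β = lab a b r j β := by
      push Not at hβ
      obtain ⟨i, j, h1, h2, h3, h4⟩ := hβ
      rcases lt_or_gt_of_ne h4 with h5 | h5
      · exact ⟨i, j, h1, h2, h5, h3⟩
      · exact ⟨j, i, h2, h1, h5, h3.symm⟩
    obtain ⟨i, j, hi, hj, hij, he⟩ := h0
    rw [abs_le] at hi hj
    obtain ⟨u, hu⟩ := Int.eq_ofNat_of_zero_le (show 0 ≤ j - i by omega)
    have hu1 : 1 ≤ u := by omega
    have hu2 : u ≤ 2 * K := by omega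
    have huM : u ∣ M := by
      rw [hMdef]
      exact (Nat.dvd_factorial hu1 hu2).mul_left q
    have hper : ∀ k : ℤ, -(v : ℤ) ≤ k → k < v + 2 * M → ex2 a b β (k + u) = ex2 a b β k := by
      intro k hk1 hk2
      have h1 := congrFun he ⟨k + j, by omega, by omega⟩
      unfold lab at h1
      simp only at h1
      have e1 : k + j - i = k + u := by omega
      have e2 : k + j - j = k := by omega
      rw [e1, e2] at h1
      exact h1
    have h2 := periodic_zero hO hL hA (q := q) (m := M) (v := v) (a := a) (b := b) hqM hM0 huM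
      (by omega) (by omega) (by omega) (by omega) hper
    have h3 : pl * Gb β = Gb β := h2
    rw [hqB, sub_mul, mul_assoc, h3, sub_self]
  -- the main estimate
  have main : ∀ Ls : List ℤ, Ls.Nodup → (∀ i ∈ Ls, |i| ≤ (K : ℤ)) →
      (∀ β : Wd a b → ZMod 2, (∀ i ∈ Ls, ¬ B (lab a b r (-i) β)) →
        ((∀ i : ℕ, i ≤ K → ¬ B (lab a b r (-(i : ℤ)) β)) ∨
          (∀ i : ℕ, 1 ≤ i → i ≤ K → ¬ B (lab a b r i β)))) →
      rtr (qB * (Ls.map fun i => 1 - cj t i (E 0 * pa)).prod) ≤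
        4 * (1 - 1 / (l : ℝ)) ^ K * d + exq t qB K := by
    intro Ls hnd hLs hor
    have hLs2 : ∀ i ∈ Ls, |i| ≤ ((2 * K : ℕ) : ℤ) := by
      intro i hi
      have := hLs i hi
      push_cast
      omega
    have e1 : (Ls.map fun i => 1 - cj t i (E 0 * pa)) = Ls.map fun i => 1 - E i * cj t i pa := by
      apply List.map_congr_left
      intro i hi
      rw [hecj i (hLs2 i hi)]
    rw [e1]
    have h1 := list_bound hc E (fun i => cj t i pa) (fun i => cj t i qB) Ls
      (fun i _ => ⟨hEA i, hEP i⟩) (fun i hi => ⟨hpam i (hLs2 i hi), cj_isP P1⟩)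
      (fun i hi => ⟨hqcj i (hLs2 i hi), cj_isP hqBP⟩)
      (fun i hi => by rw [← cj_mul, hqpa]) qB hqBA hqBP
    refine h1.trans ?_
    apply add_le_add
    · have e2 : (Ls.map fun i => 1 - E i).prod =
          ∑ β, if (∀ i ∈ Ls, ¬ B (lab a b r (-i) β)) then Gb β else 0 := by
        have h2 := prod_compl Gb hGP hGo hG1 (fun i β => B (lab a b r (-i) β)) Ls
        have e3 : (Ls.map fun i => 1 - E i) = Ls.map fun i =>
            1 - (∑ β, if B (lab a b r (-i) β) then Gb β else 0) := by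
          apply List.map_congr_left
          intro i _
          rw [hEdef]
        rw [e3]
        convert h2
      rw [e2, Finset.mul_sum, rtr_sum]
      refine le_trans (Finset.sum_le_sum (fun β _ => ?_)) hB2
      have hR0 : 0 ≤ (if (∀ i j : ℤ, |i| ≤ K → |j| ≤ K → lab a b r i β = lab a b r j β → i = j) ∧
          ((∀ i : ℕ, i ≤ K → ¬ B (lab a b r (-(i : ℤ)) β)) ∨
            (∀ i : ℕ, 1 ≤ i → i ≤ K → ¬ B (lab a b r i β))) then rtr (Gb β) else 0) := by
        split_ifs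
        · exact hμ β
        · exact le_rfl
      by_cases h3 : ∀ i ∈ Ls, ¬ B (lab a b r (-i) β)
      · rw [if_pos h3]
        by_cases h4 : ∀ i j : ℤ, |i| ≤ K → |j| ≤ K → lab a b r i β = lab a b r j β → i = j
        · rw [if_pos ⟨h4, hor β h3⟩]
          rw [hc _ hqBA _ (hGA β)]
          exact rtr_mul_le (hGP β) hqBP (hc _ (hGA β) _ hqBA)
        · rw [hni β h4, rtr_zero]
          exact hR0
      · rw [if_neg h3, mul_zero, rtr_zero]
        exact hR0
    · unfold exq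
      rw [← List.sum_toFinset _ hnd]
      apply Finset.sum_le_sum_of_subset_of_nonneg
      · intro i hi
        rw [List.mem_toFinset] at hi
        have := abs_le.1 (hLs i hi)
        rw [Finset.mem_Icc]
        exact this
      · intro i hi _
        rw [Finset.mem_Icc] at hi
        have hi2 : |i| ≤ ((2 * K : ℕ) : ℤ) := by
          rw [abs_le]
          push_cast
          omega
        exact rtr_nonneg (isP_mul hqBP (isP_compl (cj_isP hqBP))
          (hc _ hqBA _ (mem_compl (hqcj i hi2))))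
  constructor
  · have h1 := main ((List.range (K + 1)).map fun i : ℕ => (i : ℤ))
      (List.Nodup.map (fun x y h => by simpa using h) List.nodup_range)
      (by
        intro i hi
        rw [List.mem_map] at hi
        obtain ⟨k, hk, rfl⟩ := hi
        rw [List.mem_range] at hk
        rw [abs_of_nonneg (by positivity)]
        omega)
      (by
        intro β h
        left
        intro i hi
        exact h i (List.mem_map.2 ⟨i, List.mem_range.2 (by omega), rfl⟩))
    unfold uB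
    rw [List.map_map] at h1
    exact h1
  · have h1 := main ((List.range K).map fun i : ℕ => -((i : ℤ) + 1))
      (List.Nodup.map (fun x y h => by simpa using h) List.nodup_range)
      (by
        intro i hi
        rw [List.mem_map] at hi
        obtain ⟨k, hk, rfl⟩ := hi
        rw [List.mem_range] at hk
        rw [abs_neg, abs_of_nonneg (by positivity)]
        omega)
      (by
        intro β h
        right
        intro i hi1 hi2
        have h2 := h (-(((i - 1 : ℕ) : ℤ) + 1)) (List.mem_map.2 ⟨i - 1, List.mem_range.2 (by omega), rfl⟩)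
        have e1 : -(-(((i - 1 : ℕ) : ℤ) + 1)) = (i : ℤ) := by omega
        rw [e1] at h2
        exact h2)
    unfold uF
    rw [List.map_map] at h1
    exact h1

end

end Pool.Agent.N704.AS
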