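import Pool.Agent.N139.AS.Stm3

/-!
# AS/STEPB, part 1: commuting projections and traces
-/

set_option autoImplicit false

namespace Pool.Agent.N704.AS

open Finset Matrix
open Pool.Agent.N139.AS

noncomputable section

variable {d : ℕ}

theorem isP_one : IsP (1 : Mt d) := ⟨isHermitian_one, one_mul 1⟩

theorem isP_compl {e : Mt d} (h : IsP e) : IsP (1 - e) := by
  refine ⟨isHermitian_one.sub h.1, ?_⟩
  have : (1 - e) * (1 - e) = 1 - e - e + e * e := by noncomm_ring
  rw [this, h.2]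
  abel

theorem isP_mul {e f : Mt d} (he : IsP e) (hf : IsP f) (h : e * f = f * e) : IsP (e * f) := by
  refine ⟨?_, ?_⟩
  · unfold Matrix.IsHermitian
    rw [conjTranspose_mul, he.1, hf.1, h]
  · calc e * f * (e * f) = e * (f * e) * f := by noncomm_ring
      _ = (e * e) * (f * f) := by rw [← h]; noncomm_ring
      _ = e * f := by rw [he.2, hf.2]

theorem rtr_add (a b : Mt d) : rtr (a + b) = rtr a + rtr b := by
  unfold rtr
  rw [trace_add, Complex.add_re]

theorem rtr_sub (a b : Mt d) : rtr (a - b) = rtr a - rtr b := by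
  unfold rtr
  rw [trace_sub, Complex.sub_re]

theorem rtr_sum {ι : Type} (s : Finset ι) (f : ι → Mt d) : rtr (∑ i ∈ s, f i) = ∑ i ∈ s, rtr (f i) := by
  unfold rtr
  rw [trace_sum, Complex.re_sum]

theorem rtr_zero : rtr (0 : Mt d) = 0 := by
  unfold rtr
  simp

theorem rtr_one : rtr (1 : Mt d) = d := by
  unfold rtr
  simp

theorem rtr_nonneg {e : Mt d} (h : IsP e) : 0 ≤ rtr e := by
  have h1 : e = eᴴ * e := by rw [h.1, h.2]
  unfold rtr
  rw [h1, trace, Complex.re_sum]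
  apply Finset.sum_nonneg
  intro i _
  rw [diag_apply, mul_apply, Complex.re_sum]
  apply Finset.sum_nonneg
  intro j _
  rw [conjTranspose_apply]
  have : star (e j i) * e j i = ((Complex.normSq (e j i) : ℝ) : ℂ) := by
    rw [mul_comm]
    exact Complex.mul_conj _
  rw [this, Complex.ofReal_re]
  exact Complex.normSq_nonneg _

theorem rtr_mul_le {e f : Mt d} (he : IsP e) (hf : IsP f) (h : e * f = f * e) :
    rtr (e * f) ≤ rtr e := by
  have h1 : IsP (e * (1 - f)) := isP_mul he (isP_compl hf) (by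
    rw [mul_sub, sub_mul, h]; simp)
  have h2 := rtr_nonneg h1
  rw [mul_sub, mul_one, rtr_sub] at h2
  linarith

/-- commutative algebra of matrices -/
def Cm (𝒜 : Subalgebra ℂ (Mt d)) : Prop := ∀ x ∈ 𝒜, ∀ y ∈ 𝒜, x * y = y * x

theorem step_id {𝒜 : Subalgebra ℂ (Mt d)} (hc : Cm 𝒜) {P Pr q E PA : Mt d} (hP : P ∈ 𝒜)
    (hPr : Pr ∈ 𝒜) (hq : q ∈ 𝒜) (hE : E ∈ 𝒜) (hPA : PA ∈ 𝒜) (h : q * PA = q) :
    P * ((1 - E * PA) * Pr) =
      P * (1 - E) * Pr * q + P * (1 - q) * ((1 - E * PA) * Pr) := by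
  letI : CommRing 𝒜 :=
    { (inferInstance : Ring 𝒜) with mul_comm := fun a b => Subtype.ext (hc a a.2 b b.2) }
  have key : ∀ P Pr q E PA : 𝒜, P * ((1 - E * PA) * Pr) -
      (P * (1 - E) * Pr * q + P * (1 - q) * ((1 - E * PA) * Pr)) =
      (P * E * Pr) * (q - q * PA) := by
    intro P Pr q E PA
    ring
  have h1 := congrArg Subtype.val (key ⟨P, hP⟩ ⟨Pr, hPr⟩ ⟨q, hq⟩ ⟨E, hE⟩ ⟨PA, hPA⟩)
  have h2 : P * ((1 - E * PA) * Pr) -
      (P * (1 - E) * Pr * q + P * (1 - q) * ((1 - E * PA) * Pr)) =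
      (P * E * Pr) * (q - q * PA) := h1
  rw [h, sub_self, mul_zero] at h2
  exact sub_eq_zero.1 h2

/-- a product of commuting projections -/
theorem prod_isP {𝒜 : Subalgebra ℂ (Mt d)} (hc : Cm 𝒜) (f : ℤ → Mt d) (Ls : List ℤ)
    (hf : ∀ i ∈ Ls, f i ∈ 𝒜 ∧ IsP (f i)) :
    (Ls.map f).prod ∈ 𝒜 ∧ IsP (Ls.map f).prod := by
  induction Ls with
  | nil => exact ⟨𝒜.one_mem, isP_one⟩
  | cons i Ls ih =>
    obtain ⟨h1, h2⟩ := ih (fun j hj => hf j (List.mem_cons_of_mem _ hj))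
    obtain ⟨h3, h4⟩ := hf i List.mem_cons_self
    rw [List.map_cons, List.prod_cons]
    exact ⟨𝒜.mul_mem h3 h1, isP_mul h4 h2 (hc _ h3 _ h1)⟩

theorem mem_compl {𝒜 : Subalgebra ℂ (Mt d)} {x : Mt d} (h : x ∈ 𝒜) : 1 - x ∈ 𝒜 :=
  𝒜.sub_mem 𝒜.one_mem h

/-- the main estimate -/
theorem list_bound {𝒜 : Subalgebra ℂ (Mt d)} (hc : Cm 𝒜) (E PA q : ℤ → Mt d) (Ls : List ℤ)
    (hE : ∀ i ∈ Ls, E i ∈ 𝒜 ∧ IsP (E i)) (hA : ∀ i ∈ Ls, PA i ∈ 𝒜 ∧ IsP (PA i))
    (hq : ∀ i ∈ Ls, q i ∈ 𝒜 ∧ IsP (q i)) (hqA : ∀ i ∈ Ls, q i * PA i = q i) :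
    ∀ P : Mt d, P ∈ 𝒜 → IsP P →
    rtr (P * (Ls.map fun i => 1 - E i * PA i).prod) ≤
      rtr (P * (Ls.map fun i => 1 - E i).prod) + (Ls.map fun i => rtr (P * (1 - q i))).sum := by
  induction Ls with
  | nil => intro P _ _; simp
  | cons i Ls ih =>
    intro P hP hPP
    have ih' := ih (fun j hj => hE j (List.mem_cons_of_mem _ hj))
      (fun j hj => hA j (List.mem_cons_of_mem _ hj)) (fun j hj => hq j (List.mem_cons_of_mem _ hj))
      (fun j hj => hqA j (List.mem_cons_of_mem _ hj))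
    obtain ⟨hEi, hEP⟩ := hE i List.mem_cons_self
    obtain ⟨hAi, hAP⟩ := hA i List.mem_cons_self
    obtain ⟨hqi, hqP⟩ := hq i List.mem_cons_self
    have hqAi := hqA i List.mem_cons_self
    have hpr := prod_isP hc (fun i => 1 - E i * PA i) Ls (fun j hj => by
      obtain ⟨a1, a2⟩ := hE j (List.mem_cons_of_mem _ hj)
      obtain ⟨b1, b2⟩ := hA j (List.mem_cons_of_mem _ hj)
      exact ⟨mem_compl (𝒜.mul_mem a1 b1), isP_compl (isP_mul a2 b2 (hc _ a1 _ b1))⟩)
    obtain ⟨hPr, hPrP⟩ := hpr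
    simp only [List.map_cons, List.prod_cons, List.sum_cons]
    set Pr := (Ls.map fun i => 1 - E i * PA i).prod with hPrdef
    have hid := step_id hc hP hPr hqi hEi hAi hqAi
    rw [hid, rtr_add]
    have hPE : P * (1 - E i) ∈ 𝒜 := 𝒜.mul_mem hP (mem_compl hEi)
    have hPEP : IsP (P * (1 - E i)) := isP_mul hPP (isP_compl hEP) (hc _ hP _ (mem_compl hEi))
    -- first term
    have h1 : rtr (P * (1 - E i) * Pr * q i) ≤ rtr (P * (1 - E i) * Pr) :=
      rtr_mul_le (isP_mul hPEP hPrP (hc _ hPE _ hPr)) hqP (hc _ (𝒜.mul_mem hPE hPr) _ hqi)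
    have h2 := ih' (P * (1 - E i)) hPE hPEP
    have h3 : (Ls.map fun j => rtr (P * (1 - E i) * (1 - q j))).sum ≤
        (Ls.map fun j => rtr (P * (1 - q j))).sum := by
      apply List.sum_le_sum
      intro j hj
      obtain ⟨c1, c2⟩ := hq j (List.mem_cons_of_mem _ hj)
      have e1 : P * (1 - E i) * (1 - q j) = P * (1 - q j) * (1 - E i) := by
        rw [mul_assoc, hc _ (mem_compl hEi) _ (mem_compl c1), ← mul_assoc]
      rw [e1]
      exact rtr_mul_le (isP_mul hPP (isP_compl c2) (hc _ hP _ (mem_compl c1))) (isP_compl hEP)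
        (hc _ (𝒜.mul_mem hP (mem_compl c1)) _ (mem_compl hEi))
    -- second term
    have hX : (1 - E i * PA i) * Pr ∈ 𝒜 := 𝒜.mul_mem (mem_compl (𝒜.mul_mem hEi hAi)) hPr
    have hXP : IsP ((1 - E i * PA i) * Pr) :=
      isP_mul (isP_compl (isP_mul hEP hAP (hc _ hEi _ hAi))) hPrP
        (hc _ (mem_compl (𝒜.mul_mem hEi hAi)) _ hPr)
    have h4 : rtr (P * (1 - q i) * ((1 - E i * PA i) * Pr)) ≤ rtr (P * (1 - q i)) :=
      rtr_mul_le (isP_mul hPP (isP_compl hqP) (hc _ hP _ (mem_compl hqi))) hXP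
        (hc _ (𝒜.mul_mem hP (mem_compl hqi)) _ hX)
    have e2 : P * ((1 - E i) * (Ls.map fun i => 1 - E i).prod) =
        P * (1 - E i) * (Ls.map fun i => 1 - E i).prod := by rw [mul_assoc]
    rw [e2]
    linarith

/-- sums of orthogonal projections -/
theorem sum_mul_sum {Y : Type} [Fintype Y] (G : Y → Mt d) (hP : ∀ y, IsP (G y))
    (ho : ∀ y z, y ≠ z → G y * G z = 0) (f g : Y → Prop) :
    (open Classical in (∑ y, if f y then G y else 0) * (∑ y, if g y then G y else 0)) =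
      open Classical in ∑ y, if f y ∧ g y then G y else 0 := by
  classical
  rw [Finset.sum_mul]
  apply Finset.sum_congr rfl
  intro y _
  rw [Finset.mul_sum, Finset.sum_eq_single y]
  · by_cases h1 : f y <;> by_cases h2 : g y <;> simp [h1, h2, (hP y).2]
  · intro z _ hz
    by_cases h1 : f y <;> by_cases h2 : g z <;> simp [h1, h2, ho y z (Ne.symm hz)]
  · intro h
    exact absurd (Finset.mem_univ _) h

theorem sum_compl {Y : Type} [Fintype Y] (G : Y → Mt d) (h1 : ∑ y, G y = 1) (f : Y → Prop) :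
    (open Classical in 1 - (∑ y, if f y then G y else 0)) =
      open Classical in ∑ y, if ¬ f y then G y else 0 := by
  classical
  rw [← h1, ← Finset.sum_sub_distrib]
  apply Finset.sum_congr rfl
  intro y _
  by_cases h : f y <;> simp [h]

theorem sum_isP {Y : Type} [Fintype Y] (G : Y → Mt d) (hP : ∀ y, IsP (G y))
    (ho : ∀ y z, y ≠ z → G y * G z = 0) (f : Y → Prop) :
    IsP (open Classical in ∑ y, if f y then G y else 0) := by
  classical
  refine ⟨?_, ?_⟩
  · unfold Matrix.IsHermitian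
    rw [conjTranspose_sum]
    apply Finset.sum_congr rfl
    intro y _
    by_cases h : f y <;> simp [h, (hP y).1.eq]
  · have := sum_mul_sum G hP ho f f
    simp only [and_self] at this
    convert this

/-- product of the complements -/
theorem prod_compl {Y : Type} [Fintype Y] (G : Y → Mt d) (hP : ∀ y, IsP (G y))
    (ho : ∀ y z, y ≠ z → G y * G z = 0) (h1 : ∑ y, G y = 1) (b : ℤ → Y → Prop) (Ls : List ℤ) :
    (Ls.map fun i => 1 - (open Classical in ∑ y, if b i y then G y else 0)).prod =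
      open Classical in ∑ y, if (∀ i ∈ Ls, ¬ b i y) then G y else 0 := by
  classical
  induction Ls with
  | nil => simp [h1]
  | cons i Ls ih =>
    rw [List.map_cons, List.prod_cons, ih]
    have h2 := sum_compl G h1 (b i)
    have h3 := sum_mul_sum G hP ho (fun y => ¬ b i y) (fun y => ∀ i ∈ Ls, ¬ b i y)
    have e1 : (1 - ∑ y, if b i y then G y else 0) = ∑ y, if ¬ b i y then G y else 0 := by
      convert h2
    rw [e1]
    have e2 : (∑ y, if ¬ b i y then G y else 0) * (∑ y, if (∀ i ∈ Ls, ¬ b i y) then G y else 0) =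
        ∑ y, if (¬ b i y ∧ ∀ i ∈ Ls, ¬ b i y) then G y else 0 := by
      convert h3
    rw [e2]
    apply Finset.sum_congr rfl
    intro y _
    simp only [List.mem_cons, forall_eq_or_imp]

end

end Pool.Agent.N704.AS
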