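import Pool.Agent.N704.AS.B1

/-!
# AS/STEPB, part 2: windows, translates, spans
-/

set_option autoImplicit false

namespace Pool.Agent.N704.AS

open Finset Matrix
open Pool.Agent.N139.AS

noncomputable section

variable {p : ℕ} {d : ℕ}

theorem InL_mono {a b a' b' : ℤ} (h1 : a' ≤ a) (h2 : b ≤ b') {l : Lam} (h : InL a b l) :
    InL a' b' l := by
  intro i hi
  have := h i hi
  omega

theorem WN_mono {a b a' b' : ℤ} (h1 : a' ≤ a) (h2 : b ≤ b') : WN p a b ≤ WN p a' b' :=
  fun _ h => ⟨InL_mono h1 h2 h.1, fun y hy => InL_mono h1 h2 (h.2 y hy)⟩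

/-- translates -/
abbrev sg (p : ℕ) (i : ℤ) (n : NN p) : NN p := ((shN p) ^ i) n

theorem sg_add (i j : ℤ) (n : NN p) : sg p i (sg p j n) = sg p (i + j) n := by
  unfold sg
  rw [_root_.zpow_add]
  rfl

theorem sg_zero (n : NN p) : sg p 0 n = n := by
  unfold sg
  simp

theorem sg_one (n : NN p) : sg p 1 n = shN p n := by
  unfold sg
  rw [zpow_one]

theorem sg_window [Fact p.Prime] (hO : S_OK) (i : ℤ) : ∀ (a b : ℤ) (n : NN p),
    sg p i n ∈ WN p (a + i) (b + i) ↔ n ∈ WN p a b := by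
  induction i using Int.induction_on with
  | zero => intro a b n; rw [sg_zero, add_zero, add_zero]
  | succ k ih =>
    intro a b n
    have h1 : sg p (k + 1) n = shN p (sg p k n) := by
      rw [← sg_one, sg_add, add_comm]
    rw [h1, ← ih a b n, ← add_assoc, ← add_assoc]
    exact (hO p).shift (a + k) (b + k) (sg p k n)
  | pred k ih =>
    intro a b n
    have h1 : shN p (sg p (-k - 1) n) = sg p (-k) n := by
      rw [← sg_one, sg_add]
      congr 1
      ring
    rw [← ih a b n, ← h1]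
    have h2 := (hO p).shift (a + (-k - 1)) (b + (-k - 1)) (sg p (-k - 1) n)
    have e1 : a + (-(k : ℤ) - 1) + 1 = a + -k := by ring
    have e2 : b + (-(k : ℤ) - 1) + 1 = b + -k := by ring
    rw [e1, e2] at h2
    exact h2.symm

theorem sg_SL (i : ℤ) : ∀ n : NN p, n ∈ SL p → sg p i n ∈ SL p := by
  have h1 : ∀ n : NN p, n ∈ SL p ↔ shN p n ∈ SL p := by
    intro n
    change n.a = 0 ↔ shA p n.a = 0
    simp
  induction i using Int.induction_on with
  | zero => intro n h; rw [sg_zero]; exact h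
  | succ k ih =>
    intro n h
    have h2 : sg p (k + 1) n = shN p (sg p k n) := by
      rw [← sg_one, sg_add, add_comm]
    rw [h2, ← h1]
    exact ih n h
  | pred k ih =>
    intro n h
    have h2 : shN p (sg p (-k - 1) n) = sg p (-k) n := by
      rw [← sg_one, sg_add]
      congr 1
      ring
    rw [h1, h2]
    exact ih n h

theorem sg_SA (i : ℤ) : ∀ n : NN p, n ∈ SA p → sg p i n ∈ SA p := by
  have h1 : ∀ n : NN p, n ∈ SA p ↔ shN p n ∈ SA p := by
    intro n
    change n.l = 0 ↔ shL n.l = 0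
    simp
  induction i using Int.induction_on with
  | zero => intro n h; rw [sg_zero]; exact h
  | succ k ih =>
    intro n h
    have h2 : sg p (k + 1) n = shN p (sg p k n) := by
      rw [← sg_one, sg_add, add_comm]
    rw [h2, ← h1]
    exact ih n h
  | pred k ih =>
    intro n h
    have h2 : shN p (sg p (-k - 1) n) = sg p (-k) n := by
      rw [← sg_one, sg_add]
      congr 1
      ring
    rw [h1, h2]
    exact ih n h

theorem SL_comm {x y : NN p} (hx : x ∈ SL p) (hy : y ∈ SL p) : x * y = y * x := by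
  have h1 : x.a = 0 := hx
  have h2 : y.a = 0 := hy
  apply NN.ext
  · rw [NN.mul_a, NN.mul_a, h1, h2, map_zero, map_zero]
  · rw [NN.mul_l, NN.mul_l, add_comm]

theorem SA_comm {x y : NN p} (hx : x ∈ SA p) (hy : y ∈ SA p) : x * y = y * x := by
  have h1 : x.l = 0 := hx
  have h2 : y.l = 0 := hy
  apply NN.ext
  · rw [NN.mul_a, NN.mul_a, h1, h2]
    ext i
    simp only [Finsupp.add_apply, trl_apply, neg_zero, zero_add]
    ring
  · rw [NN.mul_l, NN.mul_l, h1, h2]

/-! ### conjugation -/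

theorem val_mul_neg (t : UU d) (i : ℤ) : (t ^ (-i) : UU d).1 * (t ^ i : UU d).1 = 1 := by
  have : (t ^ (-i) : UU d) * (t ^ i : UU d) = 1 := by rw [← _root_.zpow_add]; simp
  exact congrArg Subtype.val this

theorem val_mul_neg' (t : UU d) (i : ℤ) : (t ^ i : UU d).1 * (t ^ (-i) : UU d).1 = 1 := by
  have : (t ^ i : UU d) * (t ^ (-i) : UU d) = 1 := by rw [← _root_.zpow_add]; simp
  exact congrArg Subtype.val this

/-- conjugation as an algebra hom -/
def cjA (t : UU d) (i : ℤ) : Mt d →ₐ[ℂ] Mt d where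
  toFun := cj t i
  map_one' := by
    unfold cj
    rw [mul_one, val_mul_neg']
  map_mul' x y := by
    unfold cj
    have h := val_mul_neg t i
    calc (t ^ i : UU d).1 * (x * y) * (t ^ (-i) : UU d).1
        = (t ^ i : UU d).1 * x * 1 * y * (t ^ (-i) : UU d).1 := by noncomm_ring
      _ = _ := by rw [← h]; noncomm_ring
  map_zero' := by
    unfold cj
    simp
  map_add' x y := by
    unfold cj
    noncomm_ring
  commutes' r := by
    unfold cj
    rw [Algebra.algebraMap_eq_smul_one, mul_smul_comm, mul_one, smul_mul_assoc, val_mul_neg']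

theorem cjA_apply (t : UU d) (i : ℤ) (x : Mt d) : cjA t i x = cj t i x := rfl

theorem cj_cj (t : UU d) (i j : ℤ) (x : Mt d) : cj t i (cj t j x) = cj t (i + j) x := by
  unfold cj
  have h1 : (t ^ (i + j) : UU d).1 = (t ^ i : UU d).1 * (t ^ j : UU d).1 := by
    rw [_root_.zpow_add]; rfl
  have h2 : (t ^ (-(i + j)) : UU d).1 = (t ^ (-j) : UU d).1 * (t ^ (-i) : UU d).1 := by
    rw [neg_add_rev, _root_.zpow_add]; rfl
  rw [h1, h2]
  noncomm_ring

theorem cj_zero (t : UU d) (x : Mt d) : cj t 0 x = x := by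
  unfold cj
  simp

theorem cj_mul (t : UU d) (i : ℤ) (x y : Mt d) : cj t i (x * y) = cj t i x * cj t i y :=
  map_mul (cjA t i) x y

theorem cj_sub (t : UU d) (i : ℤ) (x y : Mt d) : cj t i (x - y) = cj t i x - cj t i y :=
  map_sub (cjA t i) x y

theorem cj_isP {t : UU d} {i : ℤ} {e : Mt d} (h : IsP e) : IsP (cj t i e) := by
  refine ⟨?_, ?_⟩
  · have h1 : (t ^ (-i) : UU d).1 = ((t ^ i : UU d).1)ᴴ := by
      rw [_root_.zpow_neg]
      rfl
    unfold cj Matrix.IsHermitian
    rw [h1, conjTranspose_mul, conjTranspose_mul, conjTranspose_conjTranspose, h.1, mul_assoc]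
  · rw [← cj_mul, h.2]

theorem cj_one_alpha {R : ℕ} {α : NN p → UU d} {t : UU d} (hA : Act (SS p) R α t) {n : NN p}
    (hn : n ∈ WN p (-R) (R - 1)) : cj t 1 (α n).1 = (α (shN p n)).1 := by
  have h1 : t * α n = α (shN p n) * t := hA.rel n hn
  unfold cj
  have h2 : (t ^ (1 : ℤ) : UU d) * α n * (t ^ (-(1 : ℤ)) : UU d) = α (shN p n) := by
    rw [zpow_one, h1]
    simp
  exact congrArg Subtype.val h2

theorem cj_alpha_nat [Fact p.Prime] (hO : S_OK) {R : ℕ} {α : NN p → UU d} {t : UU d}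
    (hA : Act (SS p) R α t) (k : ℕ) : ∀ n ∈ WN p (-R) (R - k),
    cj t k (α n).1 = (α (sg p k n)).1 := by
  induction k with
  | zero => intro n _; rw [Nat.cast_zero, cj_zero, sg_zero]
  | succ k ih =>
    intro n hn
    have h0 : n ∈ WN p (-R) (R - k) := WN_mono le_rfl (by push_cast; omega) hn
    have h1 : sg p k n ∈ WN p (-R) (R - 1) := by
      have h2 := (sg_window hO k (-R) (R - (k + 1 : ℕ)) n).2 hn
      exact WN_mono (by omega) (by push_cast; omega) h2
    have h3 : ((k + 1 : ℕ) : ℤ) = 1 + k := by push_cast; ring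
    rw [h3, ← cj_cj, ih n h0, cj_one_alpha hA h1, ← sg_add, sg_one]

theorem cj_alpha [Fact p.Prime] (hO : S_OK) {R : ℕ} {α : NN p → UU d} {t : UU d}
    (hA : Act (SS p) R α t) {i m : ℤ} (hi : |i| ≤ m) {n : NN p}
    (hn : n ∈ WN p (-(R - m)) (R - m)) : cj t i (α n).1 = (α (sg p i n)).1 := by
  rcases le_total 0 i with h | h
  · obtain ⟨k, rfl⟩ := Int.eq_ofNat_of_zero_le h
    rw [abs_of_nonneg h] at hi
    exact cj_alpha_nat hO hA k n (WN_mono (by omega) (by omega) hn)
  · obtain ⟨k, hk⟩ := Int.eq_ofNat_of_zero_le (show 0 ≤ -i by omega)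
    rw [abs_of_nonpos h] at hi
    have hik : i = -k := by omega
    have h1 : sg p i n ∈ WN p (-R) (R - k) := by
      have h2 := (sg_window hO i (-(R - m)) (R - m) n).2 hn
      exact WN_mono (by omega) (by omega) h2
    have h2 := cj_alpha_nat hO hA k _ h1
    rw [sg_add] at h2
    have h3 : (k : ℤ) + i = 0 := by omega
    rw [h3, sg_zero] at h2
    rw [← h2, cj_cj]
    have h4 : i + k = 0 := by omega
    rw [h4, cj_zero]

/-! ### spans -/

/-- span of the images of a set -/
def Sp (α : NN p → UU d) (T : Set (NN p)) : Submodule ℂ (Mt d) :=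
  Submodule.span ℂ {M | ∃ x ∈ T, M = (α x).1}

theorem alpha_mem_Sp {α : NN p → UU d} {T : Set (NN p)} {x : NN p} (h : x ∈ T) :
    (α x).1 ∈ Sp α T := Submodule.subset_span ⟨x, h, rfl⟩

theorem Sp_mono {α : NN p → UU d} {T T' : Set (NN p)} (h : T ⊆ T') : Sp α T ≤ Sp α T' :=
  Submodule.span_mono fun _ ⟨x, hx, e⟩ => ⟨x, h hx, e⟩

theorem avS_mem (α : NN p → UU d) (T : Set (NN p)) : avS α T ∈ Sp α T := by
  unfold avS
  apply Submodule.smul_mem
  exact finsum_mem_induction (fun M => M ∈ Sp α T) (Submodule.zero_mem _)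
    (fun _ _ => Submodule.add_mem _) (fun x hx => alpha_mem_Sp hx)

/-- two commuting families -/
theorem Sp_comm {α : NN p → UU d} {T T' : Set (NN p)}
    (h : ∀ x ∈ T, ∀ y ∈ T', α x * α y = α y * α x) {X Y : Mt d} (hX : X ∈ Sp α T)
    (hY : Y ∈ Sp α T') : X * Y = Y * X := by
  induction hX using Submodule.span_induction with
  | zero => simp
  | add a b _ _ ha hb => rw [add_mul, mul_add, ha, hb]
  | smul c a _ ha => rw [smul_mul_assoc, mul_smul_comm, ha]
  | mem a ha =>
    obtain ⟨x, hx, rfl⟩ := ha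
    induction hY using Submodule.span_induction with
    | zero => simp
    | add a b _ _ ha hb => rw [add_mul, mul_add, ha, hb]
    | smul c a _ ha => rw [smul_mul_assoc, mul_smul_comm, ha]
    | mem b hb =>
      obtain ⟨y, hy, rfl⟩ := hb
      exact congrArg Subtype.val (h x hx y hy)

/-- a property closed under linear combinations -/
theorem Sp_commute {α : NN p → UU d} {T : Set (NN p)} {Z : Mt d} (Q : Mt d)
    (h : ∀ x ∈ T, Z * ((α x).1 * Q) = (α x).1 * Q * Z) {X : Mt d} (hX : X ∈ Sp α T) :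
    Z * (X * Q) = X * Q * Z := by
  induction hX using Submodule.span_induction with
  | zero => simp
  | add a b _ _ ha hb => rw [add_mul, mul_add, add_mul, ha, hb]
  | smul c a _ ha => rw [smul_mul_assoc, mul_smul_comm, ha, smul_mul_assoc]
  | mem a ha =>
    obtain ⟨x, hx, rfl⟩ := ha
    exact h x hx

theorem cj_Sp {α : NN p → UU d} {t : UU d} {i : ℤ} {T T' : Set (NN p)}
    (h : ∀ x ∈ T, sg p i x ∈ T' ∧ cj t i (α x).1 = (α (sg p i x)).1) {X : Mt d}
    (hX : X ∈ Sp α T) : cj t i X ∈ Sp α T' := by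
  rw [← cjA_apply]
  induction hX using Submodule.span_induction with
  | zero => rw [map_zero]; exact Submodule.zero_mem _
  | add a b _ _ ha hb => rw [map_add]; exact Submodule.add_mem _ ha hb
  | smul c a _ ha => rw [map_smul]; exact Submodule.smul_mem _ _ ha
  | mem a ha =>
    obtain ⟨x, hx, rfl⟩ := ha
    rw [cjA_apply, (h x hx).2]
    exact alpha_mem_Sp (h x hx).1

/-- the average over a finite subgroup is invariant -/
theorem avS_inv {R : ℕ} {α : NN p → UU d} {t : UU d} (hA : Act (SS p) R α t)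
    (T : Subgroup (NN p)) (hT : T ≤ WN p (-R) R) (hf : (T : Set (NN p)).Finite) {y : NN p}
    (hy : y ∈ T) : (α y).1 * avS α (T : Set (NN p)) = avS α (T : Set (NN p)) := by
  unfold avS
  rw [mul_smul_comm]
  congr 1
  have h0 := AddMonoidHom.map_finsum_mem (fun n => (α n).1) (AddMonoidHom.mulLeft (α y).1) hf
  rw [AddMonoidHom.coe_mulLeft] at h0
  rw [h0]
  have h1 : ∀ x ∈ (T : Set (NN p)), (α y).1 * (α x).1 = (α (y * x)).1 := by
    intro x hx
    have := hA.mul y (hT hy) x (hT hx)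
    rw [this]
    rfl
  rw [finsum_mem_congr rfl h1]
  apply finsum_mem_eq_of_bijOn (fun x => y * x)
  · refine ⟨fun x hx => T.mul_mem hy hx, fun x _ x' _ h => mul_left_cancel h, fun x hx => ?_⟩
    exact ⟨y⁻¹ * x, T.mul_mem (T.inv_mem hy) hx, by simp⟩
  · intro x _
    rfl

end

end Pool.Agent.N704.AS
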