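import Pool.Agent.N704.AS.B2

/-!
# AS/STEPB, part 3: lamps, the kernel of the folding map
-/

set_option autoImplicit false

namespace Pool.Agent.N704.AS

open Finset
open Pool.Agent.N139.AS

noncomputable section

theorem fi_add (q : ℕ) (i : ℤ) : fi q (i + q) = fi q i := by
  unfold fi
  rw [Int.add_emod_right]

theorem fi_fi {q q' : ℕ} (h : q ∣ q') (i : ℤ) : fi q (fi q' i) = fi q i := by
  unfold fi
  congr 1
  obtain ⟨c, rfl⟩ := h
  have h1 : (i % ((q * c : ℕ) : ℤ) - ((q * c : ℕ) : ℤ)) =
      i % ((q * c : ℕ) : ℤ) + (-(c : ℤ)) * q := by push_cast; ring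
  rw [h1, Int.add_mul_emod_self_right]
  apply Int.emod_emod_of_dvd
  exact ⟨c, by push_cast; ring⟩

theorem shL_iter (m : ℕ) : ∀ (l : Lam) (i : ℤ), (shL^[m] l) i = l (i - m) := by
  induction m with
  | zero => intro l i; simp
  | succ m ih =>
    intro l i
    rw [Function.iterate_succ_apply', shL_apply, ih]
    congr 1
    push_cast
    ring

theorem shL_iter_map (m : ℕ) (l : Lam) :
    shL^[m] l = Finsupp.mapDomain (fun i : ℤ => i + m) l := by
  ext i
  rw [shL_iter]
  have h := Finsupp.mapDomain_apply (f := fun i : ℤ => i + m)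
    (fun a b h => by simpa using h) l (i - m)
  simp only [sub_add_cancel] at h
  exact h.symm

theorem InL_sh {a b : ℤ} {l : Lam} (h : InL a b l) (m : ℕ) : InL (a + m) (b + m) (shL^[m] l) := by
  intro i hi
  rw [shL_iter] at hi
  have := h _ hi
  omega

theorem fL_sh (q : ℕ) (l : Lam) : fL q (shL^[q] l) = fL q l := by
  rw [shL_iter_map]
  change Finsupp.mapDomain (fi q) (Finsupp.mapDomain _ l) = Finsupp.mapDomain (fi q) l
  rw [← Finsupp.mapDomain_comp]
  congr 1
  funext i
  exact fi_add q i

theorem lam_two (l : Lam) : l + l = 0 := by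
  ext i
  simp [CharTwo.add_self_eq_zero]

theorem fL_D (q : ℕ) (l : Lam) : fL q (shL^[q] l + l) = 0 := by
  rw [map_add, fL_sh, lam_two]

theorem fL_fL {q q' : ℕ} (h : q ∣ q') (l : Lam) : fL q (fL q' l) = fL q l := by
  change Finsupp.mapDomain (fi q) (Finsupp.mapDomain (fi q') l) = Finsupp.mapDomain (fi q) l
  rw [← Finsupp.mapDomain_comp]
  congr 1
  funext i
  exact fi_fi h i

theorem fN_SL {p q : ℕ} {x : NN p} (hx : x ∈ SL p) : fN p q x = 1 ↔ fL q x.l = 0 := by
  have h1 : x.a = 0 := hx
  constructor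
  · intro h
    exact congrArg NN.l h
  · intro h
    apply NN.ext
    · change fA p q x.a = 0
      rw [h1, map_zero]
    · exact h

theorem fN_dvd {p q q' : ℕ} (h : q ∣ q') {x : NN p} (hx : x ∈ SL p) (h1 : fN p q' x = 1) :
    fN p q x = 1 := by
  rw [fN_SL hx] at h1 ⊢
  rw [← fL_fL h, h1, map_zero]

theorem xl_SL (p q : ℕ) (ν : Lam) : xl p q ν ∈ SL p := rfl

theorem xl_ker (p q : ℕ) (ν : Lam) : fN p q (xl p q ν) = 1 := by
  rw [fN_SL (xl_SL p q ν)]
  exact fL_D q ν

theorem xl_window {p q : ℕ} {a b : ℤ} {ν : Lam} (h : InL a b ν) :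
    xl p q ν ∈ WN p a (b + q) := by
  refine ⟨?_, fun y hy => absurd rfl hy⟩
  exact (InL_mono (by omega) le_rfl (InL_sh h q)).add (InL_mono le_rfl (by omega) h)

/-- the kernel of the folding map -/
theorem fold_ker {q : ℕ} (hq : 0 < q) (a : ℤ) (n : ℕ) : ∀ l : Lam, InL a (a + n) l →
    fL q l = 0 → ∃ ν : Lam, InL a (a + n) ν ∧ l = shL^[q] ν + ν := by
  induction n with
  | zero =>
    intro l hl _
    refine ⟨0, InL.zero _ _, ?_⟩
    have h0 : l = 0 := by
      ext i
      by_contra h
      have := hl i h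
      push_cast at this
      omega
    rw [h0]
    ext i
    rw [Finsupp.add_apply, shL_iter]
    simp
  | succ n ih =>
    intro l hl hf
    by_cases hn : q ≤ n
    · obtain ⟨ν0, hν0⟩ : ∃ ν0 : Lam, ν0 = Finsupp.single (a + n - q) (l (a + n)) := ⟨_, rfl⟩
      have hsh : shL^[q] ν0 = Finsupp.single (a + n) (l (a + n)) := by
        rw [shL_iter_map, hν0, Finsupp.mapDomain_single, sub_add_cancel]
      have hin : InL a (a + n) (l + (shL^[q] ν0 + ν0)) := by
        intro i hi
        rw [Finsupp.add_apply, Finsupp.add_apply, hsh, hν0] at hi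
        have hq' : (0 : ℤ) < q := by exact_mod_cast hq
        have hqn : (q : ℤ) ≤ n := by exact_mod_cast hn
        by_cases h1 : i = a + n
        · exfalso
          apply hi
          rw [h1, Finsupp.single_eq_same, Finsupp.single_eq_of_ne (by omega), add_zero,
            CharTwo.add_self_eq_zero]
        · by_cases h2 : i = a + n - q
          · omega
          · rw [Finsupp.single_eq_of_ne (by omega), Finsupp.single_eq_of_ne (by omega), add_zero,
              add_zero] at hi
            have := hl i hi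
            push_cast at this
            omega
      obtain ⟨ν, hν, hν2⟩ := ih _ hin (by rw [map_add, hf, fL_D, add_zero])
      refine ⟨ν + ν0, ?_, ?_⟩
      · apply InL.add (InL_mono le_rfl (by push_cast; omega) hν)
        intro i hi
        rw [hν0] at hi
        have h2 : i = a + n - q := by
          by_contra h3
          exact hi (Finsupp.single_eq_of_ne (by omega))
        have hqn : (q : ℤ) ≤ n := by exact_mod_cast hn
        push_cast
        omega
      · have h3 : shL^[q] (ν + ν0) = shL^[q] ν + shL^[q] ν0 := by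
          rw [shL_iter_map, shL_iter_map, shL_iter_map, Finsupp.mapDomain_add]
        rw [h3]
        have h4 : l = (l + (shL^[q] ν0 + ν0)) + (shL^[q] ν0 + ν0) := by
          rw [add_assoc, lam_two, add_zero]
        rw [h4, hν2]
        abel
    · refine ⟨0, InL.zero _ _, ?_⟩
      have h0 : l = 0 := by
        have hinj : Set.InjOn (fi q) (Set.Ico a (a + (n + 1 : ℕ))) := by
          intro x hx y hy hxy
          unfold fi at hxy
          rw [Set.mem_Ico] at hx hy
          have h1 : x % q = y % q := by omega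
          have h2 : (q : ℤ) ∣ x - y :=
            Int.dvd_of_emod_eq_zero (Int.emod_eq_emod_iff_emod_sub_eq_zero.1 h1)
          have h3 : |x - y| < q := by
            rw [abs_lt]
            push_cast at hx hy
            push Not at hn
            omega
          have h4 := Int.eq_zero_of_abs_lt_dvd h2 h3
          omega
        have h1 := Finsupp.mapDomain_injOn (M := ZMod 2) _ hinj
        apply h1
        · intro i hi
          have := hl i (by simpa using hi)
          exact ⟨this.1, this.2⟩
        · simp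
        · rw [Finsupp.mapDomain_zero]
          exact hf
      rw [h0]
      ext i
      rw [Finsupp.add_apply, shL_iter]
      simp

/-! ### polynomials in the shift -/

/-- the shift as a linear map -/
def sE : Module.End (ZMod 2) Lam := Finsupp.lmapDomain (ZMod 2) (ZMod 2) (fun i : ℤ => i + 1)

theorem sE_pow (m : ℕ) (l : Lam) : (sE ^ m) l = shL^[m] l := by
  induction m with
  | zero => simp
  | succ m ih =>
    rw [pow_succ', Module.End.mul_apply, ih, Function.iterate_succ_apply']
    have h := shL_iter_map 1 (shL^[m] l)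
    rw [Function.iterate_one] at h
    rw [h]
    rfl

theorem aeval_D (m : ℕ) (l : Lam) :
    Polynomial.aeval sE ((Polynomial.X : Polynomial (ZMod 2)) ^ m + 1) l = shL^[m] l + l := by
  rw [map_add, map_pow, Polynomial.aeval_X, map_one, LinearMap.add_apply, sE_pow,
    Module.End.one_apply]

theorem InL_sum {ι : Type} {a b : ℤ} (s : Finset ι) (f : ι → Lam) (h : ∀ i ∈ s, InL a b (f i)) :
    InL a b (∑ i ∈ s, f i) := by
  classical
  induction s using Finset.induction_on with
  | empty => simpa using InL.zero a b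
  | insert i s hi ih =>
    rw [Finset.sum_insert hi]
    exact (h i (Finset.mem_insert_self _ _)).add (ih fun j hj => h j (Finset.mem_insert_of_mem hj))

theorem aeval_InL (g : Polynomial (ZMod 2)) {a b : ℤ} {l : Lam} (h : InL a b l) :
    InL a (b + g.natDegree) (Polynomial.aeval sE g l) := by
  rw [Polynomial.aeval_eq_sum_range, LinearMap.sum_apply]
  apply InL_sum
  intro i hi
  rw [Finset.mem_range] at hi
  rw [LinearMap.smul_apply, sE_pow]
  have h1 : InL a (b + g.natDegree) (shL^[i] l) := InL_mono (by omega) (by omega) (InL_sh h i)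
  intro k hk
  apply h1 k
  intro h2
  apply hk
  rw [Finsupp.smul_apply, h2, smul_zero]

theorem D_dvd {q m : ℕ} (h : q ∣ m) :
    ((Polynomial.X : Polynomial (ZMod 2)) ^ q + 1) ∣ Polynomial.X ^ m + 1 := by
  obtain ⟨u, rfl⟩ := h
  have h1 := sub_dvd_pow_sub_pow ((Polynomial.X : Polynomial (ZMod 2)) ^ q) 1 u
  rw [one_pow, CharTwo.sub_eq_add, CharTwo.sub_eq_add, ← pow_mul] at h1
  exact h1

/-- division by `(s^q - 1)(s^j - 1)` -/
theorem divide {q j m : ℕ} (hq : q ∣ m) (hj : j ∣ m) {a b : ℤ} {ν : Lam} (hν : InL a b ν)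
    (hm : 0 < m) : ∃ h : Lam, InL a (b + (2 * m : ℕ)) h ∧
      shL^[2 * m] ν + ν = shL^[q] (shL^[j] h + h) + (shL^[j] h + h) := by
  obtain ⟨g1, hg1⟩ := D_dvd hq
  obtain ⟨g2, hg2⟩ := D_dvd hj
  have h1 : (Polynomial.X : Polynomial (ZMod 2)) ^ (2 * m) + 1 =
      (Polynomial.X ^ q + 1) * ((Polynomial.X ^ j + 1) * (g1 * g2)) := by
    have h2 : (Polynomial.X : Polynomial (ZMod 2)) ^ (2 * m) + 1 =
        (Polynomial.X ^ m + 1) * (Polynomial.X ^ m + 1) := by
      rw [← pow_two, CharTwo.add_sq]
      ring
    rw [h2]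
    calc ((Polynomial.X : Polynomial (ZMod 2)) ^ m + 1) * (Polynomial.X ^ m + 1)
        = ((Polynomial.X ^ q + 1) * g1) * ((Polynomial.X ^ j + 1) * g2) := by
          rw [← hg1, ← hg2]
      _ = _ := by ring
  have hne : (Polynomial.X : Polynomial (ZMod 2)) ^ (2 * m) + 1 ≠ 0 :=
    (Polynomial.monic_X_pow_add_C (1 : ZMod 2) (n := 2 * m) (by omega)).ne_zero
  have hdeg : (g1 * g2).natDegree ≤ 2 * m := by
    have h3 : (g1 * g2) ∣ (Polynomial.X : Polynomial (ZMod 2)) ^ (2 * m) + 1 := by
      rw [h1, ← mul_assoc]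
      exact dvd_mul_left _ _
    have h4 := Polynomial.natDegree_le_of_dvd h3 hne
    have h5 : ((Polynomial.X : Polynomial (ZMod 2)) ^ (2 * m) + 1).natDegree ≤ 2 * m := by
      have := Polynomial.natDegree_X_pow_add_C (n := 2 * m) (r := (1 : ZMod 2))
      rw [Polynomial.C_1] at this
      exact this.le
    exact h4.trans h5
  refine ⟨Polynomial.aeval sE (g1 * g2) ν, ?_, ?_⟩
  · exact InL_mono le_rfl (by push_cast; have : ((g1 * g2).natDegree : ℤ) ≤ (2 * m : ℕ) := by exact_mod_cast hdeg
                              push_cast at this; omega) (aeval_InL (g1 * g2) hν)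
  · rw [← aeval_D (2 * m), ← aeval_D j, ← aeval_D q, h1, map_mul, Module.End.mul_apply, map_mul,
      Module.End.mul_apply]

/-- the value of the character -/
theorem char_zero {j : ℕ} {h : Lam} {β : ℤ → ZMod 2} (hβ : ∀ k, h k ≠ 0 → β (k + j) = β k) :
    (shL^[j] h + h).sum (fun k c => c * β k) = 0 := by
  rw [Finsupp.sum_add_index' (by simp) (by intro a b c; ring), shL_iter_map,
    Finsupp.sum_mapDomain_index (by simp) (by intro a b c; ring), ← Finsupp.sum_add]
  unfold Finsupp.sum
  apply Finset.sum_eq_zero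
  intro k hk
  simp only
  rw [hβ k (by simpa using hk), CharTwo.add_self_eq_zero]

end

end Pool.Agent.N704.AS
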