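import Pool.Agent.N704.AS.B3

/-!
# AS/STEPB, part 4: the projections `pA`, `pL` and `GG2`
-/

set_option autoImplicit false

namespace Pool.Agent.N704.AS

open Finset Matrix
open Pool.Agent.N139.AS

noncomputable section

variable {p : ℕ} {d : ℕ}

theorem GG2_mem {q : ℕ} {α : NN p → UU d} {a b : ℤ} {β : ℤ → ZMod 2} {T : Set (NN p)}
    (h : ∀ ν : Lam, InL a b ν → xl p q ν ∈ T) : GG2 p q α a b β ∈ Sp α T := by
  unfold GG2
  apply Submodule.smul_mem
  exact finsum_mem_induction (fun M => M ∈ Sp α T) (Submodule.zero_mem _)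
    (fun _ _ => Submodule.add_mem _)
    (fun ν hν => Submodule.smul_mem _ _ (alpha_mem_Sp (h ν hν)))

/-- a matrix fixed by all elements is fixed by the average -/
theorem avS_fix {α : NN p → UU d} {T : Set (NN p)} (hT : T.Finite) (hne : T.Nonempty) {G : Mt d}
    (h : ∀ n ∈ T, (α n).1 * G = G) : avS α T * G = G := by
  unfold avS
  rw [smul_mul_assoc]
  have h0 := AddMonoidHom.map_finsum_mem (fun n => (α n).1) (AddMonoidHom.mulRight G) hT
  rw [AddMonoidHom.coe_mulRight] at h0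
  simp only at h0
  rw [h0, finsum_mem_congr rfl h, finsum_mem_eq_finite_toFinset_sum _ hT, Finset.sum_const]
  have h1 : (hT.toFinset.card : ℂ) = Nat.card T := by
    rw [Nat.card_coe_set_eq, Set.ncard_eq_toFinset_card T hT]
  have h2 : (Nat.card T : ℂ) ≠ 0 := by
    rw [← h1]
    have : hT.toFinset.card ≠ 0 := by
      rw [Finset.card_ne_zero]
      exact hT.toFinset_nonempty.2 hne
    exact_mod_cast this
  rw [← Nat.cast_smul_eq_nsmul ℂ, h1, smul_smul, inv_mul_cancel₀ h2, one_smul]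

/-- the group over which `pA` averages -/
def kA (p q w : ℕ) : Subgroup (NN p) := SA p ⊓ (fN p q).ker ⊓ WN p (-w) w

theorem pA_eq (q w : ℕ) (α : NN p → UU d) : pA p q w α = avS α (kA p q w : Set (NN p)) := by
  unfold pA
  congr 1
  ext n
  simp only [kA, Subgroup.coe_inf, Set.mem_inter_iff, SetLike.mem_coe, MonoidHom.mem_ker]
  exact and_assoc.symm

theorem WN_finite [Fact p.Prime] (hO : S_OK) (a b : ℤ) :
    ((WN p a b : Subgroup (NN p)) : Set (NN p)).Finite := by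
  haveI : Finite (WN p a b) := (hO p).fin a b
  exact Set.toFinite _

theorem pA_inv [Fact p.Prime] (hO : S_OK) {R : ℕ} {α : NN p → UU d} {t : UU d}
    (hA : Act (SS p) R α t) {q w : ℕ} (hw : w ≤ R) {y : NN p} (hy : y ∈ kA p q w) :
    (α y).1 * pA p q w α = pA p q w α := by
  rw [pA_eq]
  have h1 : kA p q w ≤ WN p (-w) w := inf_le_right
  apply avS_inv hA _ (h1.trans (WN_mono (by omega) (by omega))) _ hy
  exact (WN_finite hO (-w) w).subset h1

/-- elements which commute with the image of `pA` -/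
theorem AE [Fact p.Prime] (hO : S_OK) {R : ℕ} {α : NN p → UU d} {t : UU d}
    (hA : Act (SS p) R α t) {q w : ℕ} (hw : w ≤ R) {T : Set (NN p)}
    (hT : ∀ x ∈ T, x ∈ SL p ∧ fN p q x = 1 ∧ x ∈ WN p (-w) w)
    (hc : ∀ n ∈ WN p (-w) w, Commute (α n).1 (pA p q w α)) {X : Mt d} (hX : X ∈ Sp α T)
    {n : NN p} (hn : n ∈ WN p (-w) w) : Commute (α n).1 (X * pA p q w α) := by
  have hWR : WN p (-w) w ≤ WN p (-R) R := WN_mono (by omega) (by omega)
  have hmul : ∀ x ∈ WN p (-w) w, ∀ y ∈ WN p (-w) w, (α (x * y)).1 = (α x).1 * (α y).1 := by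
    intro x hx y hy
    have := hA.mul x (hWR hx) y (hWR hy)
    rw [this]
    rfl
  set P := pA p q w α with hP
  -- lamps
  have h1 : ∀ m ∈ WN p (-w) w, m ∈ SL p → (α m).1 * (X * P) = X * P * (α m).1 := by
    intro m hm hmL
    apply Sp_commute P _ hX
    intro x hx
    obtain ⟨hx1, -, hx3⟩ := hT x hx
    rw [← mul_assoc, ← hmul m hm x hx3, SL_comm hmL hx1, hmul x hx3 m hm, mul_assoc,
      (hc m hm).eq, mul_assoc]
  -- functions
  have h2 : ∀ m ∈ WN p (-w) w, m ∈ SA p → (α m).1 * (X * P) = X * P * (α m).1 := by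
    intro m hm hmA
    apply Sp_commute P _ hX
    intro x hx
    obtain ⟨hx1, hx2, hx3⟩ := hT x hx
    have hy : m⁻¹ * x⁻¹ * m * x ∈ kA p q w := by
      refine ⟨⟨?_, ?_⟩, ?_⟩
      · change (m⁻¹ * x⁻¹ * m * x).l = 0
        have hml : m.l = 0 := hmA
        rw [NN.mul_l, NN.mul_l, NN.mul_l, NN.inv_l, NN.inv_l, hml]
        simp
      · change fN p q (m⁻¹ * x⁻¹ * m * x) = 1
        rw [map_mul, map_mul, map_mul, map_inv, map_inv, hx2]
        simp
      · exact Subgroup.mul_mem _ (Subgroup.mul_mem _ (Subgroup.mul_mem _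
          (Subgroup.inv_mem _ hm) (Subgroup.inv_mem _ hx3)) hm) hx3
    have hyw : m⁻¹ * x⁻¹ * m * x ∈ WN p (-w) w := hy.2
    have e1 : m * x = x * m * (m⁻¹ * x⁻¹ * m * x) := by group
    rw [← mul_assoc, ← hmul m hm x hx3, e1, hmul _ (Subgroup.mul_mem _ hx3 hm) _ hyw, mul_assoc,
      pA_inv hO hA hw hy, hmul x hx3 m hm, mul_assoc, (hc m hm).eq, mul_assoc]
  have hna : (⟨n.a, 0⟩ : NN p) ∈ WN p (-w) w := ⟨InL.zero _ _, hn.2⟩
  have hnl : (⟨0, n.l⟩ : NN p) ∈ WN p (-w) w := ⟨hn.1, fun y hy => absurd rfl hy⟩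
  have e2 : n = (⟨n.a, 0⟩ : NN p) * ⟨0, n.l⟩ := by
    apply NN.ext
    · rw [NN.mul_a]
      simp
    · rw [NN.mul_l]
      simp
  have h3 := h2 _ hna rfl
  have h4 := h1 _ hnl rfl
  rw [commute_iff_eq]
  calc (α n).1 * (X * P) = (α (⟨n.a, 0⟩ : NN p)).1 * ((α (⟨0, n.l⟩ : NN p)).1 * (X * P)) := by
        conv_lhs => rw [e2]
        rw [hmul _ hna _ hnl, mul_assoc]
    _ = X * P * ((α (⟨n.a, 0⟩ : NN p)).1 * (α (⟨0, n.l⟩ : NN p)).1) := by
        rw [h4, ← mul_assoc, h3, mul_assoc]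
    _ = X * P * (α n).1 := by
        rw [← hmul _ hna _ hnl, ← e2]

/-- translates of the spectral projections, nonnegative shifts -/
theorem GS_nat [Fact p.Prime] (hL : S_SPL) {R : ℕ} {α : NN p → UU d} {t : UU d}
    (hA : Act (SS p) R α t) {q : ℕ} (k : ℕ) : ∀ (a b : ℤ) (β : ℤ → ZMod 2), -R ≤ a → a ≤ b →
    b + q + k ≤ R → cj t k (GG2 p q α a b β) = GG2 p q α (a + k) (b + k) (fun i => β (i - k)) := by
  induction k with
  | zero =>
    intro a b β _ _ _
    rw [Nat.cast_zero, cj_zero, add_zero, add_zero]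
    simp
  | succ k ih =>
    intro a b β h1 h2 h3
    push_cast at h3
    have h4 : ((k + 1 : ℕ) : ℤ) = 1 + k := by push_cast; ring
    rw [h4, ← cj_cj, ih a b β h1 h2 (by omega)]
    obtain ⟨-, -, -, -, -, h5, -⟩ := hL p q R d α t hA (a + k) (b + k) (by omega) (by omega)
      (by omega)
    have h6 := h5 (fun i => β (i - k)) (by omega)
    have h7 : cj t 1 (GG2 p q α (a + k) (b + k) fun i => β (i - k)) =
        GG2 p q α (a + k + 1) (b + k + 1) (fun i => β (i - 1 - k)) := by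
      unfold cj
      rw [_root_.zpow_one, h6, mul_assoc]
      have h8 := val_mul_neg' t 1
      rw [_root_.zpow_one] at h8
      rw [h8, mul_one]
    rw [h7]
    have e1 : a + k + 1 = a + (1 + (k : ℤ)) := by ring
    have e2 : b + k + 1 = b + (1 + (k : ℤ)) := by ring
    have e3 : (fun i => β (i - 1 - k)) = fun i => β (i - (1 + (k : ℤ))) := by
      funext i
      congr 1
      ring
    rw [e1, e2, e3]

/-- translates of the spectral projections -/
theorem GS [Fact p.Prime] (hL : S_SPL) {R : ℕ} {α : NN p → UU d} {t : UU d}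
    (hA : Act (SS p) R α t) {q : ℕ} {i m : ℤ} (hi : |i| ≤ m) {a b : ℤ} (β : ℤ → ZMod 2)
    (ha : -R + m ≤ a) (hab : a ≤ b) (hb : b + q + m ≤ R) :
    cj t i (GG2 p q α a b β) = GG2 p q α (a + i) (b + i) (fun k => β (k - i)) := by
  rcases le_total 0 i with h | h
  · obtain ⟨k, rfl⟩ := Int.eq_ofNat_of_zero_le h
    rw [abs_of_nonneg h] at hi
    exact GS_nat hL hA k a b β (by omega) hab (by omega)
  · obtain ⟨k, hk⟩ := Int.eq_ofNat_of_zero_le (show 0 ≤ -i by omega)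
    rw [abs_of_nonpos h] at hi
    have h1 := GS_nat hL hA (q := q) k (a + i) (b + i) (fun k => β (k - i)) (by omega) (by omega)
      (by omega)
    have e1 : a + i + k = a := by omega
    have e2 : b + i + k = b := by omega
    have e3 : (fun x : ℤ => β (x - k - i)) = β := by
      funext x
      congr 1
      omega
    rw [e1, e2, e3] at h1
    rw [← h1, cj_cj]
    have e4 : i + k = 0 := by omega
    rw [e4, cj_zero]

/-! ### the commutative algebra -/

/-- generators -/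
def Sset (α : NN p → UU d) (t : UU d) (q w b m : ℕ) : Set (Mt d) :=
  {M | (∃ x, x ∈ SL p ∧ x ∈ WN p (-b) b ∧ M = (α x).1) ∨
    ∃ i : ℤ, |i| ≤ m ∧ M = cj t i (pA p q w α)}

theorem Sset_comm [Fact p.Prime] (hO : S_OK) {R : ℕ} {α : NN p → UU d} {t : UU d}
    (hA : Act (SS p) R α t) {q w b m : ℕ} (hw : w + m ≤ R) (hb : b + m ≤ w)
    (hc : ∀ n ∈ WN p (-w) w, Commute (α n).1 (pA p q w α)) :
    ∀ x ∈ Sset α t q w b m, ∀ y ∈ Sset α t q w b m, x * y = y * x := by
  have hmul : ∀ x ∈ WN p (-R) R, ∀ y ∈ WN p (-R) R, (α (x * y)).1 = (α x).1 * (α y).1 := by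
    intro x hx y hy
    have := hA.mul x hx y hy
    rw [this]
    rfl
  -- lamps with translates of pA
  have h1 : ∀ x, x ∈ SL p → x ∈ WN p (-b) b → ∀ i : ℤ, |i| ≤ m →
      (α x).1 * cj t i (pA p q w α) = cj t i (pA p q w α) * (α x).1 := by
    intro x _ hx2 i hi
    have hi' : |(-i)| ≤ (m : ℤ) := by rw [abs_neg]; exact hi
    have h2 : cj t (-i) (α x).1 = (α (sg p (-i) x)).1 :=
      cj_alpha hO hA hi' (WN_mono (by omega) (by omega) hx2)
    have h3 : (α x).1 = cj t i (α (sg p (-i) x)).1 := by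
      rw [← h2, cj_cj, add_neg_cancel, cj_zero]
    have h4 : sg p (-i) x ∈ WN p (-w) w := by
      have h5 := (sg_window hO (-i) (-b) b x).2 hx2
      have h6 := abs_le.1 hi
      exact WN_mono (by omega) (by omega) h5
    rw [h3, ← cj_mul, (hc _ h4).eq, cj_mul]
  rintro x (⟨x, hx1, hx2, rfl⟩ | ⟨i, hi, rfl⟩) y (⟨y, hy1, hy2, rfl⟩ | ⟨j, hj, rfl⟩)
  · have hx3 : x ∈ WN p (-R) R := WN_mono (by omega) (by omega) hx2
    have hy3 : y ∈ WN p (-R) R := WN_mono (by omega) (by omega) hy2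
    rw [← hmul x hx3 y hy3, SL_comm hx1 hy1, hmul y hy3 x hx3]
  · exact h1 x hx1 hx2 j hj
  · exact (h1 y hy1 hy2 i hi).symm
  · have h2 : ∀ i : ℤ, |i| ≤ m → cj t i (pA p q w α) ∈
        Sp α {x | x ∈ SA p ∧ x ∈ WN p (-(w + m : ℕ)) (w + m : ℕ)} := by
      intro i hi
      apply cj_Sp (T := {n | n ∈ SA p ∧ fN p q n = 1 ∧ n ∈ WN p (-w) w}) _ (avS_mem _ _)
      rintro x ⟨hx1, -, hx3⟩
      refine ⟨⟨sg_SA i x hx1, ?_⟩, ?_⟩
      · have h5 := (sg_window hO i (-w) w x).2 hx3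
        have h6 := abs_le.1 hi
        exact WN_mono (by push_cast; omega) (by push_cast; omega) h5
      · exact cj_alpha hO hA hi (WN_mono (by omega) (by omega) hx3)
    apply Sp_comm _ (h2 i hi) (h2 j hj)
    rintro x ⟨hx1, hx2⟩ y ⟨hy1, hy2⟩
    have hx3 : x ∈ WN p (-R) R := WN_mono (by push_cast; omega) (by push_cast; omega) hx2
    have hy3 : y ∈ WN p (-R) R := WN_mono (by push_cast; omega) (by push_cast; omega) hy2
    rw [← hA.mul x hx3 y hy3, SA_comm hx1 hy1, hA.mul y hy3 x hx3]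

theorem adjoin_Cm {s : Set (Mt d)} (h : ∀ x ∈ s, ∀ y ∈ s, x * y = y * x) :
    Cm (Algebra.adjoin ℂ s) := by
  intro x hx y hy
  letI := Algebra.adjoinCommRingOfComm ℂ h
  have := mul_comm (⟨x, hx⟩ : Algebra.adjoin ℂ s) ⟨y, hy⟩
  exact congrArg Subtype.val this

theorem Sp_le_adjoin {α : NN p → UU d} {T : Set (NN p)} {s : Set (Mt d)}
    (h : ∀ x ∈ T, (α x).1 ∈ s) {X : Mt d} (hX : X ∈ Sp α T) : X ∈ Algebra.adjoin ℂ s := by
  have h1 : Sp α T ≤ Subalgebra.toSubmodule (Algebra.adjoin ℂ s) := by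
    apply Submodule.span_le.2
    rintro M ⟨x, hx, rfl⟩
    exact Algebra.subset_adjoin (h x hx)
  exact h1 hX

end

end Pool.Agent.N704.AS
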