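import Pool.Agent.N704.AS.B4

/-!
# AS/STEPB, part 5: expansions and the periodic labels
-/

set_option autoImplicit false

namespace Pool.Agent.N704.AS

open Finset Matrix
open Pool.Agent.N139.AS

noncomputable section

variable {p : ℕ} {d : ℕ}

/-- the index set of a window -/
abbrev Wd (a b : ℤ) : Type := {k : ℤ // a ≤ k ∧ k < b}

instance (a b : ℤ) : Finite (Wd a b) := Set.Finite.to_subtype (Set.finite_Ico a b)

noncomputable instance instWd (a b : ℤ) : Fintype (Wd a b) := Fintype.ofFinite _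

/-- labels -/
def lab (a b r : ℤ) (i : ℤ) (β : Wd a b → ZMod 2) : Wd (-r) r → ZMod 2 :=
  fun k => ex2 a b β (k.1 - i)

theorem ex2_of {a b : ℤ} (β : Wd a b → ZMod 2) {k : ℤ} (h : a ≤ k ∧ k < b) :
    ex2 a b β k = β ⟨k, h⟩ := by
  unfold ex2
  rw [dif_pos h]

open Classical in
/-- the marks -/
def EM (q : ℕ) (α : NN p → UU d) (a b r : ℤ) (B : (Wd (-r) r → ZMod 2) → Prop) (i : ℤ) : Mt d :=
  ∑ β : Wd a b → ZMod 2, if B (lab a b r (-i) β) then GG2 p q α a b (ex2 a b β) else 0

/-- translates of the marks -/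
theorem EM_shift [Fact p.Prime] (hL : S_SPL) {R : ℕ} {α : NN p → UU d} {t : UU d}
    (hA : Act (SS p) R α t) {q : ℕ} {r m : ℤ} (hr : 0 ≤ r) (hm : 0 ≤ m)
    (hR : r + m + q + m < R) (B : (Wd (-r) r → ZMod 2) → Prop) {i : ℤ} (hi : |i| ≤ m) :
    cj t i (EM q α (-(r + m)) (r + m) r B 0) = EM q α (-(r + m)) (r + m) r B i := by
  classical
  obtain ⟨-, -, -, -, -, -, h7⟩ := hL p q R d α t hA (-(r + m)) (r + m) (by omega) (by omega)
    (by omega)
  obtain ⟨-, h8⟩ := h7 (instWd _ _)
  -- expansion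
  have key : ∀ j : ℤ, |j| ≤ m → EM q α (-(r + m)) (r + m) r B j =
      ∑ γ : Wd (-r) r → ZMod 2, if B γ then
        GG2 p q α (-r + j) (r + j) (fun k => ex2 (-r) r γ (k - j)) else 0 := by
    intro j hj
    have hj' := abs_le.1 hj
    have h9 : ∀ γ : Wd (-r) r → ZMod 2,
        GG2 p q α (-r + j) (r + j) (fun k => ex2 (-r) r γ (k - j)) =
        ∑ β : Wd (-(r + m)) (r + m) → ZMod 2, if lab (-(r + m)) (r + m) r (-j) β = γ then
          GG2 p q α (-(r + m)) (r + m) (ex2 (-(r + m)) (r + m) β) else 0 := by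
      intro γ
      rw [h8 (-r + j) (r + j) (fun k => ex2 (-r) r γ (k - j)) (by omega) (by omega) (by omega)]
      apply Finset.sum_congr (by congr!) 
      intro β _
      have h10 : (∀ k, -r + j ≤ k → k < r + j →
          ex2 (-(r + m)) (r + m) β k = ex2 (-r) r γ (k - j)) ↔
          lab (-(r + m)) (r + m) r (-j) β = γ := by
        constructor
        · intro h
          funext k
          have h11 := h (k.1 + j) (by have := k.2.1; omega) (by have := k.2.2; omega)
          unfold lab
          rw [sub_neg_eq_add, h11, add_sub_cancel_right, ex2_of γ k.2]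
        · intro h k hk1 hk2
          rw [← h, ex2_of (lab (-(r + m)) (r + m) r (-j) β) (k := k - j) ⟨by omega, by omega⟩]
          unfold lab
          congr 1
          ring
      by_cases hc : lab (-(r + m)) (r + m) r (-j) β = γ
      · rw [if_pos hc, if_pos (h10.2 hc)]
      · rw [if_neg hc, if_neg (fun h => hc (h10.1 h))]
    have h12 : ∀ γ : Wd (-r) r → ZMod 2, (if B γ then
        GG2 p q α (-r + j) (r + j) (fun k => ex2 (-r) r γ (k - j)) else 0) =
        ∑ β : Wd (-(r + m)) (r + m) → ZMod 2, if lab (-(r + m)) (r + m) r (-j) β = γ then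
          (if B γ then GG2 p q α (-(r + m)) (r + m) (ex2 (-(r + m)) (r + m) β) else 0) else 0 := by
      intro γ
      by_cases hB : B γ
      · simp only [hB, if_true]
        exact h9 γ
      · simp [hB]
    rw [Finset.sum_congr rfl (fun γ _ => h12 γ), Finset.sum_comm]
    unfold EM
    apply Finset.sum_congr rfl
    intro β _
    rw [Finset.sum_ite_eq]
    simp
  rw [key i hi, key 0 (by rw [abs_zero]; exact hm), ← cjA_apply, map_sum]
  apply Finset.sum_congr rfl
  intro γ _
  by_cases hB : B γ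
  · rw [if_pos hB, if_pos hB, cjA_apply, GS hL hA hi _ (by omega) (by omega) (by omega)]
    congr 1
    · ring
    · ring
    · funext k
      congr 1
      ring
  · rw [if_neg hB, if_neg hB, map_zero]

/-- a periodic label gives an invariant vector space -/
theorem periodic_zero [Fact p.Prime] (hO : S_OK) (hL : S_SPL) {R : ℕ} {α : NN p → UU d}
    {t : UU d} (hA : Act (SS p) R α t) {q m v : ℕ} {a b : ℤ} (hqm : q ∣ m) (hm : 0 < m)
    {j : ℕ} (hj : j ∣ m) (ha : a ≤ -v) (hb : v + 2 * m + j ≤ b) (haR : -R ≤ a)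
    (hbR : b + q ≤ R) {β : ℤ → ZMod 2}
    (hβ : ∀ k, -(v : ℤ) ≤ k → k < v + 2 * m → β (k + j) = β k) :
    pL p (2 * m) v α * GG2 p q α a b β = GG2 p q α a b β := by
  obtain ⟨-, -, -, h4, -, -, -⟩ := hL p q R d α t hA a b haR (by omega) hbR
  unfold pL
  apply avS_fix
  · exact (WN_finite hO (-v) v).subset (fun x hx => hx.2.2)
  · exact ⟨1, Subgroup.one_mem _, map_one _, Subgroup.one_mem _⟩
  · rintro n ⟨hn1, hn2, hn3⟩
    rw [fN_SL hn1] at hn2
    obtain ⟨ν', hν', hν2⟩ := fold_ker (q := 2 * m) (by omega) (-v) (2 * v) n.l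
      (InL_mono le_rfl (by push_cast; omega) hn3.1) hn2
    obtain ⟨h, hh, hh2⟩ := divide hqm hj hν' hm
    have hn : n = xl p q (shL^[j] h + h) := by
      apply NN.ext
      · exact hn1
      · rw [hν2, hh2]
        rfl
    have hh' : InL (-v) (v + 2 * m) h := InL_mono le_rfl (by push_cast; omega) hh
    have hin : InL a b (shL^[j] h + h) :=
      (InL_mono (by omega) (by omega) (InL_sh hh' j)).add (InL_mono (by omega) (by omega) hh')
    rw [hn, h4 β _ hin, char_zero]
    · simp
    · intro k hk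
      have := hh' k hk
      exact hβ k this.1 (by omega)

end

end Pool.Agent.N704.AS
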